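import Mathlib
import Pool.Agent.Helper69.HdDefs
import Pool.Agent.Y277.IDC.Main

/-!
# The injective dimension of `c₀`

If `2^ℵ_k = ℵ_(k+1)` for all `k < n`, then the injective dimension of `c₀` (real or complex) is at
least `n + 2`. In particular it is at least `3` under the continuum hypothesis, and it is infinite
if the generalised continuum hypothesis holds below `ℵ_ω`.

The idea: let `Q 0 = c₀`, `Q (n+1) = ℓ_∞(Γ n) / Q n` with `Γ n` of size `ℵ_n`. By induction there is
an operator `J n` into `Q n`, bounded below on the unit vectors, from the space of those bounded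
functions on `ω_n` which are small outside sets smaller than `ℵ_n`. It is obtained from an extension
of `J (n-1)` to all bounded functions and an isometric embedding of the bounded functions on `ω_n`
with supports of size less than `ℵ_n` in the bounded functions on `ω_(n-1)` modulo small functions,
given by a coherent family of maps (of the kind of Todorcevic's walks). Rosenthal's disjointness
lemma and counting show that `Q n` and `Q (n+1)` are not injective.
-/

set_option autoImplicit false

namespace Pool.Agent.Results.MP_667da3_an.GchInfinite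

open Cardinal Pool.Agent.Helper69.Fd
open scoped ZeroAtInfty

/-- Let `𝕜` be the field of real or of complex numbers. If `2 ^ ℵ_k = ℵ_(k+1)` for all `k < n`, then
`c₀` has no injective resolution of length less than `n + 2`. If `2 ^ ℵ_k = ℵ_(k+1)` for all natural
numbers `k`, then the injective dimension of `c₀` is infinite. -/
theorem result (𝕜 : Type) [RCLike 𝕜] :
    (∀ n : ℕ, (∀ k : ℕ, k < n →
        (2 : Cardinal.{0}) ^ (ℵ_ (k : Ordinal.{0})) = ℵ_ ((k + 1 : ℕ) : Ordinal.{0})) →
      ((n + 2 : ℕ) : ℕ∞) ≤ injDim 𝕜 C₀(ℕ, 𝕜)) ∧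
    ((∀ k : ℕ, (2 : Cardinal.{0}) ^ (ℵ_ (k : Ordinal.{0})) = ℵ_ ((k + 1 : ℕ) : Ordinal.{0})) →
      injDim 𝕜 C₀(ℕ, 𝕜) = ⊤) :=
  ⟨fun n h => Pool.Agent.Y277.IDC.injDim_ge n h, fun h => Pool.Agent.Y277.IDC.injDim_top h⟩

end Pool.Agent.Results.MP_667da3_an.GchInfinite
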